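import Pool.Agent.U50.MC.Stm

/-! # Project MC (helper50), package CHER: random signs do not correlate with a family of `A ^ L`
patterns (by helper395) -/

set_option autoImplicit false

namespace Pool.Agent.U395.MC

open Pool.Agent.U50.MC

/-- the moment generating function of a sum of independent signs -/
lemma mgf (L : ℕ) (B s : ℝ) (a : Fin L → Fin L → ℝ) (ha : ∀ i j, |a i j| ≤ B) :
    ∑ p : Fin L → Fin L → Bool, Real.exp (s * ∑ i, ∑ j, sg (p i j) * a i j) ≤
      2 ^ (L * L) * Real.exp (s ^ 2 * B ^ 2 * (L * L) / 2) := by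
  have h1 : ∀ p : Fin L → Fin L → Bool, Real.exp (s * ∑ i, ∑ j, sg (p i j) * a i j) =
      ∏ i, ∏ j, Real.exp (s * (sg (p i j) * a i j)) := by
    intro p
    rw [Finset.mul_sum, Real.exp_sum]
    refine Finset.prod_congr rfl fun i _ => ?_
    rw [Finset.mul_sum, Real.exp_sum]
  have h2 : ∑ p : Fin L → Fin L → Bool, ∏ i, ∏ j, Real.exp (s * (sg (p i j) * a i j)) =
      ∏ i, ∏ j, ∑ b : Bool, Real.exp (s * (sg b * a i j)) := by
    have h3 : ∀ i : Fin L, ∏ j, ∑ b : Bool, Real.exp (s * (sg b * a i j)) =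
        ∑ q : Fin L → Bool, ∏ j, Real.exp (s * (sg (q j) * a i j)) := by
      intro i
      rw [Finset.prod_univ_sum, Fintype.piFinset_univ]
    simp_rw [h3]
    rw [Finset.prod_univ_sum, Fintype.piFinset_univ]
  have h4 : ∀ i j, ∑ b : Bool, Real.exp (s * (sg b * a i j)) ≤ 2 * Real.exp (s ^ 2 * B ^ 2 / 2) := by
    intro i j
    have h5 : ∑ b : Bool, Real.exp (s * (sg b * a i j)) = 2 * Real.cosh (s * a i j) := by
      rw [Fintype.sum_bool, Real.cosh_eq]
      simp only [sg, if_true, Bool.false_eq_true, if_false]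
      have e1 : s * (-1 * a i j) = -(s * a i j) := by ring
      have e2 : s * (1 * a i j) = s * a i j := by ring
      rw [e1, e2]
      ring
    rw [h5]
    refine mul_le_mul_of_nonneg_left ((Real.cosh_le_exp_half_sq _).trans ?_) (by norm_num)
    apply Real.exp_le_exp.2
    have h6 : (a i j) ^ 2 ≤ B ^ 2 :=
      sq_le_sq' (neg_le_of_abs_le (ha i j)) (le_of_abs_le (ha i j))
    have h7 : (s * a i j) ^ 2 ≤ s ^ 2 * B ^ 2 := by
      rw [mul_pow]
      exact mul_le_mul_of_nonneg_left h6 (sq_nonneg _)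
    linarith
  simp_rw [h1]
  rw [h2]
  have h0 : ∀ i j, 0 ≤ ∑ b : Bool, Real.exp (s * (sg b * a i j)) := fun i j =>
    Finset.sum_nonneg fun _ _ => (Real.exp_pos _).le
  calc ∏ i, ∏ j, ∑ b : Bool, Real.exp (s * (sg b * a i j)) ≤
        ∏ _i : Fin L, ∏ _j : Fin L, 2 * Real.exp (s ^ 2 * B ^ 2 / 2) := by
        refine Finset.prod_le_prod (fun i _ => Finset.prod_nonneg fun j _ => h0 i j)
          fun i _ => ?_
        exact Finset.prod_le_prod (fun j _ => h0 i j) fun j _ => h4 i j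
    _ = 2 ^ (L * L) * Real.exp (s ^ 2 * B ^ 2 * (L * L) / 2) := by
        rw [Finset.prod_const, Finset.prod_const, Finset.card_univ, Fintype.card_fin, ← pow_mul,
          mul_pow, ← Real.exp_nat_mul]
        congr 2
        push_cast
        ring

/-- the mean of the maximal correlation -/
lemma core (A L : ℕ) (B s : ℝ) (Ys : Finset (Fin L → Fin L → ℂ)) (hc : Ys.card ≤ A ^ L)
    (hB : ∀ y ∈ Ys, ∀ i j, ‖y i j‖ ≤ B) (φ : ℂ → ℝ) (hφ : ∀ z, |φ z| ≤ ‖z‖)
    (Y : (Fin L → Fin L → Bool) → (Fin L → Fin L → ℂ)) (hY : ∀ p, Y p ∈ Ys) :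
    ∑ p : Fin L → Fin L → Bool, s * |∑ i, ∑ j, sg (p i j) * φ (Y p i j)| ≤
      2 ^ (L * L) * (2 + A * L + s ^ 2 * B ^ 2 * (L * L) / 2) := by
  set K : ℝ := 1 + A * L + s ^ 2 * B ^ 2 * (L * L) / 2 with hK
  -- the pointwise bound
  have h1 : ∀ p : Fin L → Fin L → Bool, s * |∑ i, ∑ j, sg (p i j) * φ (Y p i j)| ≤
      K + Real.exp (-K) * ∑ y ∈ Ys, (Real.exp (s * ∑ i, ∑ j, sg (p i j) * φ (y i j)) +
        Real.exp ((-s) * ∑ i, ∑ j, sg (p i j) * φ (y i j))) := by
    intro p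
    set Z : ℝ := ∑ i, ∑ j, sg (p i j) * φ (Y p i j) with hZ
    have h2 : Real.exp (s * |Z|) ≤ Real.exp (s * Z) + Real.exp ((-s) * Z) := by
      rcases abs_choice Z with h | h
      · rw [h]
        linarith [Real.exp_pos ((-s) * Z)]
      · rw [h]
        have : s * -Z = (-s) * Z := by ring
        rw [this]
        linarith [Real.exp_pos (s * Z)]
    have h3 : Real.exp (s * Z) + Real.exp ((-s) * Z) ≤
        ∑ y ∈ Ys, (Real.exp (s * ∑ i, ∑ j, sg (p i j) * φ (y i j)) +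
          Real.exp ((-s) * ∑ i, ∑ j, sg (p i j) * φ (y i j))) :=
      Finset.single_le_sum (f := fun y : Fin L → Fin L → ℂ =>
        Real.exp (s * ∑ i, ∑ j, sg (p i j) * φ (y i j)) +
          Real.exp ((-s) * ∑ i, ∑ j, sg (p i j) * φ (y i j)))
        (fun y _ => add_nonneg (Real.exp_pos _).le (Real.exp_pos _).le) (hY p)
    have h4 : s * |Z| ≤ K + Real.exp (-K) * Real.exp (s * |Z|) := by
      rw [← Real.exp_add]
      have := Real.add_one_le_exp (-K + s * |Z|)
      linarith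
    have h5 := mul_le_mul_of_nonneg_left (h2.trans h3) (Real.exp_pos (-K)).le
    linarith
  refine (Finset.sum_le_sum fun p _ => h1 p).trans ?_
  rw [Finset.sum_add_distrib, ← Finset.mul_sum, Finset.sum_comm, Finset.sum_const,
    Finset.card_univ]
  have hcard : Fintype.card (Fin L → Fin L → Bool) = 2 ^ (L * L) := by
    simp [← pow_mul]
  rw [hcard, nsmul_eq_mul]
  have h6 : ∀ y ∈ Ys, ∑ p : Fin L → Fin L → Bool,
      (Real.exp (s * ∑ i, ∑ j, sg (p i j) * φ (y i j)) +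
        Real.exp ((-s) * ∑ i, ∑ j, sg (p i j) * φ (y i j))) ≤
      2 * (2 ^ (L * L) * Real.exp (s ^ 2 * B ^ 2 * (L * L) / 2)) := by
    intro y hy
    rw [Finset.sum_add_distrib]
    have e1 := mgf L B s (fun i j => φ (y i j)) fun i j => (hφ _).trans (hB y hy i j)
    have e2 := mgf L B (-s) (fun i j => φ (y i j)) fun i j => (hφ _).trans (hB y hy i j)
    rw [neg_sq] at e2
    linarith
  have h7 := Finset.sum_le_sum h6
  rw [Finset.sum_const, nsmul_eq_mul] at h7
  have hA : (Ys.card : ℝ) ≤ Real.exp (A * L) := by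
    calc (Ys.card : ℝ) ≤ ((A ^ L : ℕ) : ℝ) := by exact_mod_cast hc
      _ = (A : ℝ) ^ L := by push_cast; ring
      _ ≤ (Real.exp A) ^ L := by
        refine pow_le_pow_left₀ (Nat.cast_nonneg _) ?_ L
        linarith [Real.add_one_le_exp (A : ℝ)]
      _ = Real.exp (A * L) := by
        rw [← Real.exp_nat_mul]
        congr 1
        ring
  have h2e : (2 : ℝ) ≤ Real.exp 1 := by
    have := Real.add_one_le_exp (1 : ℝ)
    linarith
  have hM0 : (0 : ℝ) ≤ 2 ^ (L * L) := by positivity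
  have h8 : (Ys.card : ℝ) * (2 * (2 ^ (L * L) * Real.exp (s ^ 2 * B ^ 2 * (L * L) / 2))) ≤
      2 ^ (L * L) * Real.exp K := by
    have e1 : Real.exp K = Real.exp (A * L) * (Real.exp 1 *
        Real.exp (s ^ 2 * B ^ 2 * (L * L) / 2)) := by
      rw [hK, ← Real.exp_add, ← Real.exp_add]
      congr 1
      ring
    rw [e1]
    have e2 : 2 * (2 ^ (L * L) * Real.exp (s ^ 2 * B ^ 2 * (L * L) / 2)) ≤
        2 ^ (L * L) * (Real.exp 1 * Real.exp (s ^ 2 * B ^ 2 * (L * L) / 2)) := by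
      have := mul_le_mul_of_nonneg_right h2e
        (mul_nonneg hM0 (Real.exp_pos (s ^ 2 * B ^ 2 * (L * L) / 2)).le)
      linarith
    calc (Ys.card : ℝ) * (2 * (2 ^ (L * L) * Real.exp (s ^ 2 * B ^ 2 * (L * L) / 2))) ≤
          Real.exp (A * L) * (2 ^ (L * L) * (Real.exp 1 *
            Real.exp (s ^ 2 * B ^ 2 * (L * L) / 2))) :=
          mul_le_mul hA e2 (by positivity) (Real.exp_pos _).le
      _ = _ := by ring
  have h9 := mul_le_mul_of_nonneg_left (h7.trans h8) (Real.exp_pos (-K)).le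
  have h10 : Real.exp (-K) * (2 ^ (L * L) * Real.exp K) = 2 ^ (L * L) := by
    rw [mul_left_comm, ← Real.exp_add, neg_add_cancel, Real.exp_zero, mul_one]
  rw [h10] at h9
  push_cast
  rw [hK]
  rw [hK] at h9
  linarith

/-- **MC-CHER.** -/
theorem t_CHER : S_CHER := by
  intro A B δ hδ
  obtain ⟨s, hs⟩ : ∃ s : ℝ, s = δ / (4 * (B ^ 2 + 1)) := ⟨_, rfl⟩
  have hs0 : 0 < s := by rw [hs]; positivity
  have hsB : s * B ^ 2 ≤ δ / 4 := by
    rw [hs, div_mul_eq_mul_div, div_le_div_iff₀ (by positivity) (by norm_num)]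
    nlinarith [sq_nonneg B]
  obtain ⟨L0, hL0⟩ := exists_nat_ge (8 * (2 + (A : ℝ)) / (s * δ))
  refine ⟨max L0 1, fun L hL Ys hc hB Y hY => ?_⟩
  have hL1 : (1 : ℝ) ≤ L := by exact_mod_cast (le_max_right L0 1).trans hL
  have hL2 : 8 * (2 + (A : ℝ)) / (s * δ) ≤ L :=
    hL0.trans (by exact_mod_cast (le_max_left L0 1).trans hL)
  rw [div_le_iff₀ (by positivity)] at hL2
  have hM0 : (0 : ℝ) < 2 ^ (L * L) := by positivity
  have key : ∀ φ : ℂ → ℝ, (∀ z, |φ z| ≤ ‖z‖) →
      ∑ p : Fin L → Fin L → Bool, |∑ i, ∑ j, sg (p i j) * φ (Y p i j)| ≤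
        δ / 4 * (2 ^ (L * L) * (L * L)) := by
    intro φ hφ
    have h1 := core A L B s Ys hc hB φ hφ Y hY
    rw [← Finset.mul_sum] at h1
    refine le_of_mul_le_mul_left (h1.trans ?_) hs0
    have h2 : 2 + (A : ℝ) * L + s ^ 2 * B ^ 2 * (L * L) / 2 ≤ s * (δ / 4 * (L * L)) := by
      have e1 : 2 + (A : ℝ) * L ≤ (2 + A) * L := by nlinarith
      have e2 : (2 + (A : ℝ)) * L ≤ s * δ / 8 * (L * L) := by nlinarith
      have e3 : s ^ 2 * B ^ 2 * (L * L) / 2 ≤ s * δ / 8 * (L * L) := by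
        have h0 : (0 : ℝ) ≤ L * L := by positivity
        have := mul_le_mul_of_nonneg_left hsB (mul_nonneg hs0.le h0)
        nlinarith
      nlinarith
    calc 2 ^ (L * L) * (2 + (A : ℝ) * L + s ^ 2 * B ^ 2 * (L * L) / 2) ≤
          2 ^ (L * L) * (s * (δ / 4 * (L * L))) := mul_le_mul_of_nonneg_left h2 hM0.le
      _ = s * (δ / 4 * (2 ^ (L * L) * (L * L))) := by ring
  have h3 : ∀ p : Fin L → Fin L → Bool, ‖∑ i, ∑ j, (sg (p i j) : ℂ) * Y p i j‖ ≤
      |∑ i, ∑ j, sg (p i j) * (Y p i j).re| + |∑ i, ∑ j, sg (p i j) * (Y p i j).im| := by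
    intro p
    refine (Complex.norm_le_abs_re_add_abs_im _).trans (le_of_eq ?_)
    congr 2
    · simp [Complex.re_sum]
    · simp [Complex.im_sum]
  refine (norm_sum_le _ _).trans ((Finset.sum_le_sum fun p _ => h3 p).trans ?_)
  rw [Finset.sum_add_distrib]
  have h4 := key Complex.re Complex.abs_re_le_norm
  have h5 := key Complex.im Complex.abs_im_le_norm
  have h6 : (0 : ℝ) ≤ δ * (2 ^ (L * L) * (L * L)) := by positivity
  linarith

end Pool.Agent.U395.MC
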