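import Pool.Agent.U50.MC.Stm

/-! # Project MC (helper50), package SKP: the skew product with a cocycle with values in `ℤ/3`
(by helper395) -/

set_option autoImplicit false

namespace Pool.Agent.U395.MC

open MeasureTheory Pool.Agent.U50.MC
open scoped ENNReal

/-- the uniform probability on `ℤ/3` -/
noncomputable def nu : Measure (ZMod 3) := (3 : ℝ≥0∞)⁻¹ • Measure.count

instance : IsProbabilityMeasure nu := by
  refine ⟨?_⟩
  have h1 : (Measure.count : Measure (ZMod 3)) Set.univ = 3 := by
    rw [Measure.count_univ]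
    simp
  rw [nu, Measure.smul_apply, h1, smul_eq_mul]
  exact ENNReal.inv_mul_cancel (by norm_num) (by norm_num)

lemma nu_map_add (a : ZMod 3) : Measure.map (fun z => z + a) nu = nu := by
  rw [nu, Measure.map_smul, map_add_right_eq_self]

/-- the skew product -/
def sk {Ω : Type} (T : Equiv.Perm Ω) (c : Ω → ZMod 3) : Equiv.Perm (Ω × ZMod 3) where
  toFun p := (T p.1, p.2 + c p.1)
  invFun p := (T.symm p.1, p.2 - c (T.symm p.1))
  left_inv p := by simp
  right_inv p := by simp

lemma sk_pow {Ω : Type} (T : Equiv.Perm Ω) (c : Ω → ZMod 3) (n : ℕ) (x : Ω) (z : ZMod 3) :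
    (sk T c ^ n) (x, z) = ((T ^ n) x, z + ∑ t ∈ Finset.range n, c ((T ^ t) x)) := by
  induction n with
  | zero => simp
  | succ n ih =>
    rw [pow_succ', Equiv.Perm.mul_apply, ih, Finset.sum_range_succ, pow_succ',
      Equiv.Perm.mul_apply]
    show (T ((T ^ n) x), (z + ∑ t ∈ Finset.range n, c ((T ^ t) x)) + c ((T ^ n) x)) = _
    rw [add_assoc]

lemma zeta3 : Complex.exp (2 * Real.pi * Complex.I / 3) ^ 3 = 1 := by
  rw [← Complex.exp_nat_mul]
  have : ((3 : ℕ) : ℂ) * (2 * Real.pi * Complex.I / 3) = 2 * Real.pi * Complex.I := by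
    push_cast
    ring
  rw [this]
  exact Complex.exp_two_pi_mul_I

lemma om_norm (z : ZMod 3) : ‖om z‖ = 1 := by
  unfold om
  rw [norm_pow]
  have : ‖Complex.exp (2 * Real.pi * Complex.I / 3)‖ = 1 := by
    have h : (2 * Real.pi * Complex.I / 3 : ℂ) = ((2 * Real.pi / 3 : ℝ) : ℂ) * Complex.I := by
      push_cast
      ring
    rw [h, Complex.norm_exp_ofReal_mul_I]
  rw [this, one_pow]

lemma om_add (a b : ZMod 3) : om (a + b) = om a * om b := by
  unfold om
  rw [ZMod.val_add, ← pow_add, ← Nat.mod_add_div (a.val + b.val) 3, pow_add, pow_mul, zeta3,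
    one_pow, mul_one]
  congr 1
  simp

lemma om_three (z u v : ZMod 3) : om z * om (z + u) * om (z + v) = om (u + v) := by
  have h3 : om z * om z * om z = 1 := by
    rw [← om_add, ← om_add]
    have : z + z + z = 0 := by
      have : z + z + z = 3 * z := by ring
      rw [this]
      have h : (3 : ZMod 3) = 0 := rfl
      rw [h, zero_mul]
    rw [this]
    simp [om]
  rw [om_add z u, om_add z v, om_add u v]
  calc om z * (om z * om u) * (om z * om v) = (om z * om z * om z) * (om u * om v) := by ring
    _ = _ := by rw [h3, one_mul]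

lemma meas_add {α : Type} [MeasurableSpace α] {f g : α → ZMod 3} (hf : Measurable f)
    (hg : Measurable g) : Measurable fun a => f a + g a :=
  (Measurable.of_discrete (f := fun p : ZMod 3 × ZMod 3 => p.1 + p.2)).comp (hf.prodMk hg)

/-- **MC-SKP.** -/
theorem t_SKP : S_SKP := by
  intro Ω _ μ _ T c hT hT' hc
  refine ⟨Ω × ZMod 3, inferInstance, μ.prod nu, inferInstance, sk T c, fun p => om p.2,
    ?_, ?_, ?_, fun x => (om_norm x.2).le, fun n => ?_⟩
  · have h := MeasurePreserving.skew_product (μa := μ) (μb := μ) (μc := nu) (μd := nu) hT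
      (g := fun x z => z + c x) ?_ (Filter.Eventually.of_forall fun x => nu_map_add (c x))
    · exact h
    · exact meas_add measurable_snd (hc.comp measurable_fst)
  · have h := MeasurePreserving.skew_product (μa := μ) (μb := μ) (μc := nu) (μd := nu) hT'
      (g := fun x z => z + (- c (T.symm x))) ?_
      (Filter.Eventually.of_forall fun x => nu_map_add (- c (T.symm x)))
    · refine (Eq.mp ?_ h)
      congr 1
      funext p
      show (T.symm p.1, p.2 + (- c (T.symm p.1))) = (T.symm p.1, p.2 - c (T.symm p.1))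
      rw [sub_eq_add_neg]
    · exact meas_add measurable_snd ((Measurable.of_discrete (f := fun z : ZMod 3 => - z)).comp
        ((hc.comp hT'.measurable).comp measurable_fst))
  · exact (Measurable.of_discrete (f := om)).comp measurable_snd
  · have h1 : ∀ p : Ω × ZMod 3, om p.2 * om (((sk T c) ^ n) p).2 * om (((sk T c) ^ (2 * n)) p).2 =
        (fun x : Ω => om ((∑ t ∈ Finset.range n, c ((T ^ t) x)) +
          ∑ t ∈ Finset.range (2 * n), c ((T ^ t) x))) p.1 := by
      rintro ⟨x, z⟩
      rw [sk_pow, sk_pow]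
      exact om_three z _ _
    have h2 := integral_fun_fst (μ := μ) (ν := nu) (fun x : Ω =>
      om ((∑ t ∈ Finset.range n, c ((T ^ t) x)) + ∑ t ∈ Finset.range (2 * n), c ((T ^ t) x)))
    rw [integral_congr_ae (Filter.Eventually.of_forall h1), h2, probReal_univ, one_smul]

end Pool.Agent.U395.MC
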